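import Pool.Agent.helper17.MK.Spec
import Pool.Agent.helper38.FC.T5
import Pool.Agent.helper85.FC.BV

/-!
# Four clusters, row TA: the sum over `n` of a combination of the `ind τ`, form `m` prime
-/

set_option autoImplicit false

namespace Pool.Agent.MK

open Finset Real Pool.Agent.helper39.MT Pool.Agent.helper85.FC

/-- TA -/
theorem TA : TA_stmt := by
  intro k D₀ W A B h hk hD ε hε hε1 K K' hh m
  obtain ⟨C1, Lb, hC1, hS2⟩ := T4_S2_one_of wt_shift1 h hk hD m
  obtain ⟨La, hbv⟩ := bv (A m) (h.Apos m) ε hε hε1 (K + K' + 1) (hh * k)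
  obtain ⟨C4, hC4, hpow⟩ := pow_omega_le (hh * k)
  obtain ⟨Le, hsmall⟩ := Filter.eventually_atTop.1
    (T5_small (K + K' + 1) (show (0 : ℝ) < 3 / 8 by norm_num) (C1 * C4))
  refine ⟨max 2 (max La (max Lb (max Le (2 * A m)))), fun a hL R hR2 hR X hX => ?_⟩
  simp only [max_le_iff] at hL
  obtain ⟨hL2, hLa, hLb, hLe, hLf⟩ := hL
  have hL0 : 0 < a := by linarith
  specialize hbv a hLa
  specialize hS2 a hLb R hR
  specialize hsmall a hLe
  obtain ⟨E, hE0, hE1, hE2⟩ := hbv
  obtain ⟨c, hc1, hc2, hc3⟩ := hX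
  set pr : PS W R → ℕ := fun p => (p : ℕ) with hprdef
  set Y : ℝ := Real.exp ((1 / 2 - ε) * a) with hY
  have hY1 : 1 ≤ Y := Real.one_le_exp (by
    refine mul_nonneg ?_ hL0.le
    linarith)
  have hdd : ∀ τ, c τ ≠ 0 → (dd pr τ : ℝ) ≤ Y := fun τ hτ => (hc3 τ hτ).1
  have hYa : Y ≤ Real.exp a := Real.exp_le_exp.2 (by nlinarith)
  -- abbreviations
  set μ : PS W R → Option (Fin k) → ℝ := fun p => mu1 m ((p : ℕ) : ℝ) with hμdef
  set I : (PS W R → Option (Fin k)) → ℝ := fun τ => ∑ n ∈ Ioc 0 (NN 1 a),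
    wt 1 a n * lam (A m * n + B m) * ind τ (pat A B (PS W R) n) with hIdef
  set S₁ : ℝ := pmass (a + Real.log (A m)) with hS₁
  set Xr : ℝ := (W : ℝ) / Nat.totient W with hXr
  set CP : ℝ := a ^ K' with hCP
  have hCP0 : 0 ≤ CP := by positivity
  -- the two sums in terms of the coefficients
  have hsumI : ∑ n ∈ Ioc 0 (NN 1 a), wt 1 a n * lam (A m * n + B m) *
      X (pat A B (PS W R) n) = ∑ τ, c τ * I τ := by
    simp only [hc1, hIdef, Finset.mul_sum]
    rw [Finset.sum_comm]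
    refine Finset.sum_congr rfl fun τ _ => Finset.sum_congr rfl fun n _ => by ring
  have hEx : Ex μ X = ∑ τ, c τ * Ex μ (ind τ) := by
    have : X = fun e => ∑ τ, c τ * ind τ e := by
      funext e; exact hc1 e
    rw [this]
    exact TR11b.Ex_sum μ c ind
  set e5 := a * Real.exp (-a) with he5
  have he5pos : 0 < e5 := mul_pos hL0 (Real.exp_pos _)
  -- the error for each label
  have herr : ∀ τ, |c τ * I τ - Xr * S₁ * (c τ * Ex μ (ind τ))|
      ≤ if (dd pr τ : ℝ) ≤ Y then CP * ((hh : ℝ) ^ (#{p | τ p ≠ none})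
          * (A m * E (dd pr τ) + C1 * e5)) else 0 := by
    intro τ
    have hnn : 0 ≤ A m * E (dd pr τ) + C1 * e5 := by
      have := hE0 (dd pr τ)
      positivity
    by_cases hτ : c τ = 0
    · rw [hτ]
      simp only [zero_mul, mul_zero, sub_zero, abs_zero]
      split_ifs
      · positivity
      · exact le_rfl
    · have hle := hdd τ hτ
      rw [if_pos hle]
      obtain ⟨b, hb1, hb2⟩ := hS2 τ (hle.trans hYa)
      have hEE := hE1 (dd pr τ) b (TR11b.dd_pos τ) hle hb1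
      have e1 : c τ * I τ - Xr * S₁ * (c τ * Ex μ (ind τ))
          = c τ * (I τ - Xr * S₁ * Ex μ (ind τ)) := by ring
      have hcτ : |c τ| ≤ CP * (hh : ℝ) ^ (#{p | τ p ≠ none}) := hc2 τ
      rw [e1, abs_mul]
      calc |c τ| * |I τ - Xr * S₁ * Ex μ (ind τ)|
          ≤ (CP * (hh : ℝ) ^ (#{p | τ p ≠ none})) * (A m * E (dd pr τ) + C1 * e5) := by
            refine mul_le_mul hcτ ?_ (abs_nonneg _) (by positivity)
            refine hb2.trans ?_
            have h2 : (A m : ℝ) * EP (a + Real.log (A m)) (A m * dd pr τ) b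
                ≤ A m * E (dd pr τ) :=
              mul_le_mul_of_nonneg_left hEE (by positivity)
            have h3 : C1 * a * Real.exp (-a) = C1 * e5 := by rw [he5]; ring
            rw [h3]
            linarith
        _ = CP * ((hh : ℝ) ^ (#{p | τ p ≠ none}) * (A m * E (dd pr τ) + C1 * e5)) := by ring
  -- summation over the labels
  have hYfl : ((⌊Y⌋₊ : ℕ) : ℝ) ≤ Y := Nat.floor_le (by linarith)
  have htot : |(∑ τ, c τ * I τ) - Xr * S₁ * ∑ τ, c τ * Ex μ (ind τ)|
      ≤ CP * (A m * (1 / a ^ (K + K' + 1)) + C1 * e5 * (C4 * Real.exp (5 / 8 * a))) := by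
    have h1 : (∑ τ, c τ * I τ) - Xr * S₁ * ∑ τ, c τ * Ex μ (ind τ)
        = ∑ τ, (c τ * I τ - Xr * S₁ * (c τ * Ex μ (ind τ))) := by
      rw [Finset.mul_sum, ← Finset.sum_sub_distrib]
    rw [h1]
    refine (Finset.abs_sum_le_sum_abs _ _).trans ?_
    refine (Finset.sum_le_sum fun τ _ => herr τ).trans ?_
    rw [← Finset.sum_filter, ← Finset.mul_sum]
    refine mul_le_mul_of_nonneg_left ?_ hCP0
    have h2 := sum_labels' k W R Y (fun D => A m * E D + C1 * e5) (fun D => by
      have := hE0 D; positivity) hh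
    refine h2.trans ?_
    have h3 : ∑ D ∈ Icc 1 ⌊Y⌋₊ with Squarefree D ∧ Nat.Coprime D W,
        ((hh * k : ℕ) : ℝ) ^ D.primeFactors.card * (A m * E D + C1 * e5)
        = A m * (∑ D ∈ Icc 1 ⌊Y⌋₊ with Squarefree D ∧ Nat.Coprime D W,
          ((hh * k : ℕ) : ℝ) ^ D.primeFactors.card * E D)
          + C1 * e5 * ∑ D ∈ Icc 1 ⌊Y⌋₊ with Squarefree D ∧ Nat.Coprime D W,
          ((hh * k : ℕ) : ℝ) ^ D.primeFactors.card := by
      rw [Finset.mul_sum, Finset.mul_sum, ← Finset.sum_add_distrib]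
      refine Finset.sum_congr rfl fun D _ => by ring
    rw [h3]
    have h4 : ∑ D ∈ Icc 1 ⌊Y⌋₊ with Squarefree D ∧ Nat.Coprime D W,
          ((hh * k : ℕ) : ℝ) ^ D.primeFactors.card * E D ≤ 1 / a ^ (K + K' + 1) := by
      refine le_trans ?_ hE2
      refine Finset.sum_le_sum_of_subset_of_nonneg ?_ ?_
      · intro D hD'
        simp only [Finset.mem_filter] at hD' ⊢
        refine ⟨hD'.1, hD'.2.1, ?_⟩
        by_contra hcon
        obtain ⟨q, hq, hq1, hq2⟩ := Nat.Prime.not_coprime_iff_dvd.1 hcon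
        have hq3 := (h.dvdA m q hq).1 hq2
        have := Nat.Coprime.eq_one_of_dvd (Nat.Coprime.coprime_dvd_left hq1 hD'.2.2) hq3
        exact hq.one_lt.ne' this
      · intro D _ _
        exact mul_nonneg (by positivity) (hE0 D)
    have h5 : ∑ D ∈ Icc 1 ⌊Y⌋₊ with Squarefree D ∧ Nat.Coprime D W,
          ((hh * k : ℕ) : ℝ) ^ D.primeFactors.card ≤ C4 * Real.exp (5 / 8 * a) := by
      calc ∑ D ∈ Icc 1 ⌊Y⌋₊ with Squarefree D ∧ Nat.Coprime D W,
            ((hh * k : ℕ) : ℝ) ^ D.primeFactors.card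
          ≤ ∑ D ∈ Icc 1 ⌊Y⌋₊, ((hh * k : ℕ) : ℝ) ^ D.primeFactors.card :=
            Finset.sum_le_sum_of_subset_of_nonneg (Finset.filter_subset _ _)
              (fun _ _ _ => by positivity)
        _ ≤ ∑ D ∈ Icc 1 ⌊Y⌋₊, C4 * Y ^ (1 / 4 : ℝ) := by
            refine Finset.sum_le_sum fun D hD' => ?_
            have hD1 := Finset.mem_Icc.1 hD'
            refine (hpow D (by omega)).trans ?_
            refine mul_le_mul_of_nonneg_left ?_ hC4.le
            have hD3 : (D : ℝ) ≤ Y := le_trans (by exact_mod_cast hD1.2) hYfl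
            exact Real.rpow_le_rpow (Nat.cast_nonneg _) hD3 (by norm_num)
        _ = ((⌊Y⌋₊ : ℕ) : ℝ) * (C4 * Y ^ (1 / 4 : ℝ)) := by
            rw [Finset.sum_const, Nat.card_Icc, nsmul_eq_mul]
            simp only [Nat.add_sub_cancel]
        _ ≤ Y * (C4 * Y ^ (1 / 4 : ℝ)) :=
            mul_le_mul_of_nonneg_right hYfl (by positivity)
        _ = C4 * (Y * Y ^ (1 / 4 : ℝ)) := by ring
        _ ≤ C4 * Real.exp (5 / 8 * a) := by
            refine mul_le_mul_of_nonneg_left ?_ hC4.le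
            rw [hY, ← Real.exp_mul, ← Real.exp_add]
            refine Real.exp_le_exp.2 ?_
            nlinarith
    have h6 : (0 : ℝ) ≤ A m := by positivity
    have h7 := mul_le_mul_of_nonneg_left h4 h6
    have h8 := mul_le_mul_of_nonneg_left h5 (mul_nonneg hC1.le he5pos.le)
    linarith
  rw [← hsumI, ← hEx] at htot
  refine htot.trans ?_
  -- numerics
  have hA0 : (0 : ℝ) ≤ A m := by positivity
  have hexp : Real.exp (-a) * Real.exp (5 / 8 * a) = Real.exp (-(3 / 8 * a)) := by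
    rw [← Real.exp_add]; congr 1; ring
  have hKp : 0 < a ^ K := by positivity
  calc CP * (A m * (1 / a ^ (K + K' + 1)) + C1 * e5 * (C4 * Real.exp (5 / 8 * a)))
      = (A m : ℝ) / a * (1 / a ^ K) + C1 * C4 * (a ^ (K + K' + 1)
          * Real.exp (-(3 / 8 * a))) * (1 / a ^ K) := by
        rw [← hexp, he5, hCP, pow_add, pow_add, pow_one]
        field_simp
    _ ≤ 1 / 2 * (1 / a ^ K) + 1 / 2 * (1 / a ^ K) := by
        refine add_le_add (mul_le_mul_of_nonneg_right ?_ (by positivity))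
          (mul_le_mul_of_nonneg_right hsmall (by positivity))
        rw [div_le_iff₀ hL0]
        linarith
    _ = 1 / a ^ K := by ring

end Pool.Agent.MK
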